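import Pool.Agent.Lib.NLT.Idx
import Pool.Agent.Lib.NLT.Gsk

/-!
# NLU / Defs: the tower lower bound for all exponents
-/

set_option autoImplicit false

namespace NLU

open NLB NLT Module

/-- every element has a finite order all of whose prime divisors lie in `ℓ` -/
def PiGroup (ℓ : List ℕ) (G : Type) [Group G] : Prop := ∀ x : G, ∃ m : ℕ, 0 < m ∧ x ^ m = 1 ∧ ∀ r : ℕ, r.Prime → r ∣ m → r ∈ ℓ

/-- towers with bases from a list -/
def tw : List ℕ → ℕ
  | [] => 1
  | p :: l => p ^ tw l

/-- a normal subgroup `K` of finite index at least `m`, whose quotient has exponent dividing `e` -/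
structure GoodU (K : Subgroup F2) (e m : ℕ) : Prop where
  nor : K.Normal
  fin : K.FiniteIndex
  exp : ∀ g : F2, g ^ e ∈ K
  idx : m ≤ K.index

end NLU
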