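import Pool.Agent.Lib.NLU.Defs

/-!
# NLU / Acn: the finite quotients

PROOF IN WORDS. `exists_KSf`: as `NLT/Ksg.lean`, `exists_KS` (there `R ⧸ Q` is finite by `A c ≤ Q`; here `Module.finite_of_finite (ZMod p)`). The index: `R ⧸ Q` is spanned by the classes of `u (Quotient.out c)`, `c : F2 ⧸ K` (finite): `u g - u (g * k) = -(u g * (u k - 1)) ∈ Q` for `k ∈ K`, and the `u g` span (`span_u`).
`act_homf`: `Q = Jd V ⊔ Iw n` is two-sided (`Jd` by its definition; `Iw_two`), `G = F2 ⧸ K`, `ρ = QuotientGroup.mk' K`. If `u g - 1 ∈ V` then it is in `Jd V` (`1 * v * 1`), so `g ∈ K`.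
-/

set_option autoImplicit false

namespace NLU

open NLB NLT Module

variable (p : ℕ) [Fact p.Prime]

private theorem acn_ind (P : R p → Prop) (h0 : P 0) (ha : ∀ a b, P a → P b → P (a + b))
    (hs : ∀ (c : ZMod p) (a : R p), P a → P (c • a)) (hu : ∀ g, P (u p g)) (a : R p) : P a := by
  have h : a ∈ Submodule.span (ZMod p) (Set.range (u p)) := by
    rw [span_u]
    exact Submodule.mem_top
  induction h using Submodule.span_induction with
  | mem x hx =>
    obtain ⟨g, rfl⟩ := hx
    exact hu g
  | zero => exact h0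
  | add x y _ _ hx hy => exact ha x y hx hy
  | smul c x _ hx => exact hs c x hx

theorem exists_KSf (Q : Submodule (ZMod p) (R p)) (hQ : TwoSided p Q) (hfin : FiniteDimensional (ZMod p) (R p ⧸ Q)) :
    ∃ K : Subgroup F2, (∀ g, g ∈ K ↔ u p g - 1 ∈ Q) ∧ K.Normal ∧ K.FiniteIndex ∧ finrank (ZMod p) (R p ⧸ Q) ≤ K.index := by
  let K : Subgroup F2 :=
    { carrier := {g | u p g - 1 ∈ Q}
      mul_mem' := by
        intro g h hg hh
        change u p (g * h) - 1 ∈ Q
        have h1 : u p (g * h) - 1 = (u p g - 1) * u p h + (u p h - 1) := by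
          rw [u_mul, sub_mul, one_mul]
          abel
        rw [h1]
        exact Q.add_mem (hQ.r _ _ hg) hh
      one_mem' := by
        change u p 1 - 1 ∈ Q
        rw [u_one, sub_self]
        exact Q.zero_mem
      inv_mem' := by
        intro g hg
        change u p g⁻¹ - 1 ∈ Q
        have h1 : u p g⁻¹ - 1 = -(u p g⁻¹ * (u p g - 1)) := by
          rw [mul_sub, u_inv_mul, mul_one]
          abel
        rw [h1]
        exact Q.neg_mem (hQ.l _ _ hg) }
  have hK : ∀ g, g ∈ K ↔ u p g - 1 ∈ Q := fun g => Iff.rfl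
  have hfQ : Finite (R p ⧸ Q) := Module.finite_of_finite (ZMod p)
  have hquot : Finite (F2 ⧸ K) := by
    refine Finite.of_injective (fun x : F2 ⧸ K => Submodule.Quotient.mk (p := Q) (u p x.out)) ?_
    intro x y hxy
    have h1 : u p x.out - u p y.out ∈ Q := (Submodule.Quotient.eq Q).1 hxy
    have h2 : x.out⁻¹ * y.out ∈ K := by
      rw [hK]
      have h3 : u p (x.out⁻¹ * y.out) - 1 = -(u p x.out⁻¹ * (u p x.out - u p y.out)) := by
        rw [mul_sub, u_inv_mul, ← u_mul]
        abel
      rw [h3]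
      exact Q.neg_mem (hQ.l _ _ h1)
    rw [← QuotientGroup.out_eq' x, ← QuotientGroup.out_eq' y]
    exact QuotientGroup.eq.2 h2
  refine ⟨K, hK, ⟨?_⟩, Subgroup.finiteIndex_of_finite_quotient, ?_⟩
  · intro g hg h
    rw [hK] at hg ⊢
    have h1 : u p (h * g * h⁻¹) - 1 = u p h * (u p g - 1) * u p h⁻¹ := by
      rw [mul_sub, mul_one, sub_mul, ← u_mul, ← u_mul, u_mul_inv]
    rw [h1]
    exact hQ.r _ _ (hQ.l _ _ hg)
  · let v : F2 ⧸ K → R p ⧸ Q := fun c => Q.mkQ (u p c.out)
    have hsp : Submodule.span (ZMod p) (Set.range v) = ⊤ := by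
      rw [eq_top_iff]
      intro x _
      obtain ⟨a, rfl⟩ := Submodule.mkQ_surjective _ x
      refine acn_ind p (fun a => Q.mkQ a ∈ Submodule.span (ZMod p) (Set.range v)) ?_ ?_ ?_ ?_ a
      · rw [map_zero]
        exact Submodule.zero_mem _
      · intro a b ha hb
        rw [map_add]
        exact Submodule.add_mem _ ha hb
      · intro c a ha
        rw [map_smul]
        exact Submodule.smul_mem _ _ ha
      · intro g
        obtain ⟨k, hk⟩ := QuotientGroup.mk_out_eq_mul K g
        have h1 : Q.mkQ (u p g) = v (QuotientGroup.mk g) := by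
          show Q.mkQ (u p g) = Q.mkQ (u p (QuotientGroup.mk g : F2 ⧸ K).out)
          rw [hk, eq_comm, ← sub_eq_zero, ← map_sub, Submodule.mkQ_apply, Submodule.Quotient.mk_eq_zero]
          have h2 : u p (g * k) - u p g = u p g * (u p k - 1) := by
            rw [mul_sub, mul_one, u_mul]
          rw [h2]
          exact hQ.l _ _ ((hK _).1 k.2)
        rw [h1]
        exact Submodule.subset_span ⟨_, rfl⟩
    letI : Fintype (F2 ⧸ K) := Fintype.ofFinite _
    have hsurj : Function.Surjective (Finsupp.linearCombination (ZMod p) v) := by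
      rw [← LinearMap.range_eq_top, Finsupp.range_linearCombination, hsp]
    have h1 := LinearMap.finrank_le_finrank_of_surjective hsurj
    rw [Module.finrank_finsupp_self, ← Nat.card_eq_fintype_card] at h1
    exact h1

private theorem J_two (V : Submodule (ZMod p) (R p)) : TwoSided p (Jd p V) := by
  constructor
  · intro a x hx
    induction hx using Submodule.span_induction with
    | mem x hx =>
      obtain ⟨a', b', v, hv, rfl⟩ := hx
      exact Submodule.subset_span ⟨a * a', b', v, hv, by simp only [mul_assoc]⟩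
    | zero => rw [mul_zero]; exact Submodule.zero_mem _
    | add x y _ _ hx hy => rw [mul_add]; exact Submodule.add_mem _ hx hy
    | smul c x _ hx => rw [mul_smul_comm]; exact Submodule.smul_mem _ _ hx
  · intro b x hx
    induction hx using Submodule.span_induction with
    | mem x hx =>
      obtain ⟨a, b', v, hv, rfl⟩ := hx
      exact Submodule.subset_span ⟨a, b' * b, v, hv, by simp only [mul_assoc]⟩
    | zero => rw [zero_mul]; exact Submodule.zero_mem _
    | add x y _ _ hx hy => rw [add_mul]; exact Submodule.add_mem _ hx hy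
    | smul c x _ hx => rw [smul_mul_assoc]; exact Submodule.smul_mem _ _ hx

theorem act_homf (I V : Submodule (ZMod p) (R p)) (hI : TwoSided p I) (n : ℕ)
    (hfin : FiniteDimensional (ZMod p) (R p ⧸ (Jd p V ⊔ Iw p I n))) :
    ∃ (G : Type) (_ : Group G) (ρ : F2 →* G), Finite G ∧ Function.Surjective ρ ∧
      (∀ g, u p g - 1 ∈ V → ρ g = 1) ∧ bI p I V n ≤ Nat.card G := by
  have hJ := J_two p V
  have hW := Iw_two p I hI n
  have hQ : TwoSided p (Jd p V ⊔ Iw p I n) := by
    constructor
    · intro a x hx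
      obtain ⟨y, hy, z, hz, rfl⟩ := Submodule.mem_sup.1 hx
      rw [mul_add]
      exact Submodule.add_mem_sup (hJ.l _ _ hy) (hW.l _ _ hz)
    · intro a x hx
      obtain ⟨y, hy, z, hz, rfl⟩ := Submodule.mem_sup.1 hx
      rw [add_mul]
      exact Submodule.add_mem_sup (hJ.r _ _ hy) (hW.r _ _ hz)
  obtain ⟨K, hK, hn, hf, hidx⟩ := exists_KSf p _ hQ hfin
  refine ⟨F2 ⧸ K, inferInstance, QuotientGroup.mk' K, Subgroup.finite_quotient_of_finiteIndex,
    QuotientGroup.mk'_surjective K, ?_, hidx⟩
  intro g hg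
  refine (QuotientGroup.eq_one_iff g).2 ((hK g).2 (Submodule.mem_sup_left ?_))
  exact Submodule.subset_span ⟨1, 1, u p g - 1, hg, by rw [one_mul, mul_one]⟩

end NLU
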