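import Pool.Agent.Lib.NLU.Defs

/-!
# NLU / Cnt: count of the boundary

PROOF IN WORDS. `Bool × W` has `2 * W.card` elements; the pairs with `b :: w ∈ W` correspond to the nonempty words of `W` (`(b, w) ↦ b :: w`, bijective onto `W \\ {[]}` by `hs`), so there are `W.card - 1` of them. `2 m - (m - 1) = m + 1` (`W.card ≥ 1`).
-/

set_option autoImplicit false

namespace NLU

open NLB NLT Module

variable (p : ℕ) [Fact p.Prime]

theorem card_nt (W : Finset (List Bool)) (h0 : [] ∈ W) (hs : ∀ b w, b :: w ∈ W → w ∈ W) :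
    Fintype.card {x : Bool × W // x.1 :: x.2.1 ∉ W} = W.card + 1 := by
  classical
  have h1 : Fintype.card {x : Bool × W // x.1 :: x.2.1 ∈ W} = (W.erase []).card := by
    rw [← Fintype.card_coe (W.erase [])]
    apply Fintype.card_of_bijective (f := fun x : {x : Bool × W // x.1 :: x.2.1 ∈ W} =>
      (⟨x.1.1 :: x.1.2.1, Finset.mem_erase.2 ⟨List.cons_ne_nil _ _, x.2⟩⟩ : (W.erase [] : Finset (List Bool))))
    constructor
    · rintro ⟨⟨b, w, hw⟩, hx⟩ ⟨⟨c, v, hv⟩, hy⟩ h
      have h' : b :: w = c :: v := congrArg Subtype.val h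
      obtain ⟨rfl, rfl⟩ := List.cons.inj h'
      rfl
    · rintro ⟨y, hy⟩
      rw [Finset.mem_erase] at hy
      obtain ⟨hn, hy⟩ := hy
      cases y with
      | nil => exact absurd rfl hn
      | cons b w => exact ⟨⟨(b, ⟨w, hs b w hy⟩), hy⟩, rfl⟩
  have h2 : Fintype.card {x : Bool × W // x.1 :: x.2.1 ∉ W} =
      Fintype.card (Bool × W) - Fintype.card {x : Bool × W // x.1 :: x.2.1 ∈ W} := by
    rw [← Fintype.card_subtype_compl]
  have h3 : Fintype.card (Bool × W) = 2 * W.card := by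
    rw [Fintype.card_prod, Fintype.card_bool, Fintype.card_coe]
  have h4 : 1 ≤ W.card := Finset.card_pos.2 ⟨_, h0⟩
  rw [h2, h1, h3, Finset.card_erase_of_mem h0]
  omega

end NLU
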