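import Pool.Agent.Lib.NLU.Defs

/-!
# NLU / Dih: the dimension of the relation module

PROOF IN WORDS. `D` Fox derivatives (`fox p`, `IsFox`). The linear map `x ↦ (eps x, [D false x], [D true x])` from `R` to `ZMod p × (R ⧸ I) × (R ⧸ I)` is onto (`algebraMap a + y * X false + z * X true` goes to `(a, [y], [z])`, `IsFox.mulX`, `D b` of a scalar is `0`: `D b 1 = 0` from `mul`) and kills `I * Dl`: `eps` of it is `0` (`eps z = 0`), `D b (y * z) = y * D b z + eps z • D b y = y * D b z ∈ I` (`hI.r`).
So `1 + 2 * finrank (R ⧸ I) ≤ finrank (R ⧸ I * Dl)`; finite: `A (c+1) = A c * Dl ≤ I * Dl` and `fin_A`.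
-/

set_option autoImplicit false

namespace NLU

open NLB NLT Module

variable (p : ℕ) [Fact p.Prime]

theorem dim_fin (I : Submodule (ZMod p) (R p)) (hI : TwoSided p I) (hfI : FiniteDimensional (ZMod p) (R p ⧸ I))
    (hfR : FiniteDimensional (ZMod p) (R p ⧸ (I * Dl p))) :
    1 + 2 * finrank (ZMod p) (R p ⧸ I) ≤ finrank (ZMod p) (R p ⧸ (I * Dl p)) := by
  obtain ⟨D, hD⟩ := fox p
  have hD1 : ∀ b, D b 1 = 0 := by
    intro b
    have h := hD.mul b 1 1
    rw [mul_one, one_mul, map_one (eps p), one_smul] at h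
    exact left_eq_add.1 h
  have hDa : ∀ (b : Bool) (a : ZMod p), D b (algebraMap (ZMod p) (R p) a) = 0 := by
    intro b a
    rw [Algebra.algebraMap_eq_smul_one, map_smul, hD1, smul_zero]
  have heX : ∀ c, eps p (X p c) = 0 := by
    intro c
    unfold X
    rw [map_sub, eps_u, map_one, sub_self]
  let L : R p →ₗ[ZMod p] (ZMod p × (R p ⧸ I) × (R p ⧸ I)) :=
    (eps p).toLinearMap.prod ((I.mkQ ∘ₗ D false).prod (I.mkQ ∘ₗ D true))
  have hLs : Function.Surjective L := by
    rintro ⟨a, q1, q2⟩
    obtain ⟨y, rfl⟩ := I.mkQ_surjective q1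
    obtain ⟨z, rfl⟩ := I.mkQ_surjective q2
    refine ⟨algebraMap (ZMod p) (R p) a + y * X p false + z * X p true, ?_⟩
    show (eps p (algebraMap (ZMod p) (R p) a + y * X p false + z * X p true),
      I.mkQ (D false (algebraMap (ZMod p) (R p) a + y * X p false + z * X p true)),
      I.mkQ (D true (algebraMap (ZMod p) (R p) a + y * X p false + z * X p true))) = _
    have e0 : eps p (algebraMap (ZMod p) (R p) a + y * X p false + z * X p true) = a := by
      rw [map_add, map_add, map_mul, map_mul, heX, heX, mul_zero, mul_zero, add_zero, add_zero,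
        AlgHom.commutes]
      rfl
    have e1 : D false (algebraMap (ZMod p) (R p) a + y * X p false + z * X p true) = y := by
      rw [map_add, map_add, hDa, hD.mulX, hD.mulX]
      simp
    have e2 : D true (algebraMap (ZMod p) (R p) a + y * X p false + z * X p true) = z := by
      rw [map_add, map_add, hDa, hD.mulX, hD.mulX]
      simp
    rw [e0, e1, e2]
  have hLk : I * Dl p ≤ LinearMap.ker L := by
    rw [Submodule.mul_le]
    intro y hy z hz
    have hz0 : eps p z = 0 := hz
    rw [LinearMap.mem_ker]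
    show (eps p (y * z), I.mkQ (D false (y * z)), I.mkQ (D true (y * z))) = 0
    have h1 : ∀ b, I.mkQ (D b (y * z)) = 0 := by
      intro b
      rw [hD.mul, hz0, zero_smul, add_zero, Submodule.mkQ_apply, Submodule.Quotient.mk_eq_zero]
      exact hI.r _ _ hy
    rw [h1, h1, map_mul, hz0, mul_zero]
    rfl
  have hs : Function.Surjective ((I * Dl p).liftQ L hLk) := by
    intro x
    obtain ⟨y, rfl⟩ := hLs x
    exact ⟨Submodule.Quotient.mk y, rfl⟩
  have h1 := LinearMap.finrank_le_finrank_of_surjective hs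
  rw [Module.finrank_prod, Module.finrank_prod, Module.finrank_self] at h1
  omega

end NLU
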