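import Pool.Agent.Lib.NLU.Defs

/-!
# NLU / Fmu: finite codimension of products

PROOF IN WORDS. `fin_mul`: choose a finite set `C` with `R = span C + L` and a finite set `C'` with `R = span C' + I` (lift finite bases of the quotients). Each `x ∈ I` is `∑ D i x * β i` and `D i x = s + l`, `s ∈ span C`, `l ∈ L`, so `x` is in the span of the `c * β i` plus `L * I`. So `R = span C' + span {c * β i} + L * I`, and `R ⧸ L * I` is spanned by finitely many classes.
`fin_Iw`: induction on `n`; `R ⧸ ⊤` is zero; `Iw (n+1) = Iw n * I`.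
-/

set_option autoImplicit false

namespace NLU

open NLB NLT Module

variable (p : ℕ) [Fact p.Prime]

private theorem exists_fin (W : Submodule (ZMod p) (R p)) (h : FiniteDimensional (ZMod p) (R p ⧸ W)) :
    ∃ C : Submodule (ZMod p) (R p), FiniteDimensional (ZMod p) C ∧ C ⊔ W = ⊤ := by
  obtain ⟨C, hC⟩ := Submodule.exists_isCompl W
  refine ⟨C, ?_, ?_⟩
  · exact Module.Finite.equiv (Submodule.quotientEquivOfIsCompl W C hC)
  · rw [sup_comm]
    exact hC.sup_eq_top

private theorem fin_of (C W : Submodule (ZMod p) (R p)) (hC : FiniteDimensional (ZMod p) C)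
    (h : C ⊔ W = ⊤) : FiniteDimensional (ZMod p) (R p ⧸ W) := by
  have hs : Function.Surjective (W.mkQ.comp C.subtype) := by
    intro y
    obtain ⟨x, rfl⟩ := W.mkQ_surjective y
    have hx : x ∈ C ⊔ W := by
      rw [h]
      trivial
    obtain ⟨c, hc, w, hw, rfl⟩ := Submodule.mem_sup.1 hx
    refine ⟨⟨c, hc⟩, ?_⟩
    rw [LinearMap.comp_apply, Submodule.subtype_apply, map_add]
    have : W.mkQ w = 0 := by
      rw [Submodule.mkQ_apply]
      exact (Submodule.Quotient.mk_eq_zero W).2 hw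
    rw [this, add_zero]
  exact Module.Finite.of_surjective _ hs

theorem fin_mul (L I : Submodule (ZMod p) (R p)) (hL : FiniteDimensional (ZMod p) (R p ⧸ L)) (hI : FiniteDimensional (ZMod p) (R p ⧸ I))
    {ι : Type} [Fintype ι] [DecidableEq ι] (β : ι → R p) (D : ι → (R p →ₗ[ZMod p] R p)) (h : IsFr p I β D) :
    FiniteDimensional (ZMod p) (R p ⧸ (L * I)) := by
  obtain ⟨C, hC, hCL⟩ := exists_fin p L hL
  obtain ⟨C', hC', hCI⟩ := exists_fin p I hI
  let f : ι → (R p →ₗ[ZMod p] R p) := fun i => LinearMap.mulRight (ZMod p) (β i)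
  have hE : FiniteDimensional (ZMod p) (⨆ i, Submodule.map (f i) C : Submodule (ZMod p) (R p)) :=
    Submodule.finiteDimensional_iSup _
  refine fin_of p (C' ⊔ ⨆ i, Submodule.map (f i) C) (L * I)
    (Submodule.finiteDimensional_sup _ _) ?_
  rw [eq_top_iff]
  intro y _
  have hy : y ∈ C' ⊔ I := by
    rw [hCI]
    trivial
  obtain ⟨c, hc, x, hx, rfl⟩ := Submodule.mem_sup.1 hy
  refine Submodule.add_mem _ (Submodule.mem_sup_left (Submodule.mem_sup_left hc)) ?_
  rw [h.fund x hx]
  refine Submodule.sum_mem _ fun i _ => ?_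
  have hd : D i x ∈ C ⊔ L := by
    rw [hCL]
    trivial
  obtain ⟨s, hs, l, hl, hsl⟩ := Submodule.mem_sup.1 hd
  rw [← hsl, add_mul]
  refine Submodule.add_mem _ (Submodule.mem_sup_left (Submodule.mem_sup_right ?_))
    (Submodule.mem_sup_right (Submodule.mul_mem_mul hl (h.mem i)))
  exact Submodule.mem_iSup_of_mem i ⟨s, hs, rfl⟩

theorem fin_Iw (I : Submodule (ZMod p) (R p)) (hI : FiniteDimensional (ZMod p) (R p ⧸ I))
    {ι : Type} [Fintype ι] [DecidableEq ι] (β : ι → R p) (D : ι → (R p →ₗ[ZMod p] R p)) (h : IsFr p I β D) (n : ℕ) :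
    FiniteDimensional (ZMod p) (R p ⧸ Iw p I n) := by
  induction n with
  | zero =>
    refine fin_of p ⊥ _ inferInstance ?_
    rw [Iw, bot_sup_eq]
  | succ n ih =>
    have := fin_mul p (Iw p I n) I ih hI β D h
    rw [Iw]
    exact this

end NLU
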