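import Pool.Agent.Lib.NLU.Dih

/-!
# NLU / Idy: the index of the next subgroup

PROOF IN WORDS. Let `Q = IK K * Dl`, `S` = image of `IK K` in `R ⧸ Q` (`Submodule.map Q.mkQ (IK K)`). `R ⧸ Q` is finite dimensional (`fin_rel`, `fin_A`) and `finrank S = finrank (R ⧸ Q) - finrank (R ⧸ IK K) ≥ 1 + finrank (R ⧸ IK K) ≥ m` (`Q ≤ IK K`; `Submodule.finrank_quotient_add_finrank` for `S` in `R ⧸ Q` and `Submodule.quotientQuotientEquivQuotient`), so `p ^ m ≤ Nat.card S` (`Module.card_eq_pow_finrank`, `ZMod.card`).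
For `s ∈ S` choose `x ∈ IK K` over it and by `sur_IK` `k s ∈ K` with `[u (k s) - 1] = s`. `s ↦ (k s : F2 ⧸ K')` is injective: if `(k s)⁻¹ * k t ∈ K'` then `u (k t) - u (k s) = u (k s) * (u ((k s)⁻¹ * k t) - 1) ∈ Q` (left multiplication keeps `Q`: `IK_two`), so `s = t`. Hence `Nat.card S ≤ Nat.card (F2 ⧸ K') = K'.index` (`Finite.card_le_of_injective`).
-/

set_option autoImplicit false

namespace NLU

open NLB NLT Module

variable (p : ℕ) [Fact p.Prime]

theorem idx_fin (K : Subgroup F2) (hK : K.Normal) (hf : K.FiniteIndex) (hfin : FiniteDimensional (ZMod p) (R p ⧸ (IK p K * Dl p)))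
    (m : ℕ)
    (hm : m ≤ finrank (ZMod p) (R p ⧸ IK p K)) (K' : Subgroup F2) (hK' : ∀ g, g ∈ K' ↔ u p g - 1 ∈ IK p K * Dl p)
    (hf' : K'.FiniteIndex) : p ^ m ≤ K'.index := by
  have h2 : TwoSided p (IK p K) := IK_two p K hK
  have hQle : IK p K * Dl p ≤ IK p K := by
    rw [Submodule.mul_le]
    intro a ha b _
    exact h2.r b a ha
  have hQl : ∀ a x : R p, x ∈ IK p K * Dl p → a * x ∈ IK p K * Dl p := by
    intro a x hx
    refine Submodule.mul_induction_on (C := fun x => a * x ∈ IK p K * Dl p) hx (fun m hm i hi => ?_) fun x y hx hy => ?_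
    · rw [← mul_assoc]
      exact Submodule.mul_mem_mul (h2.l a m hm) hi
    · rw [mul_add]
      exact Submodule.add_mem _ hx hy
  have hdim := dim_fin p (IK p K) h2 (IK_fin p K hf) hfin
  generalize hQ : IK p K * Dl p = Q at *
  set S : Submodule (ZMod p) (R p ⧸ Q) := Submodule.map Q.mkQ (IK p K) with hS
  have e1 : finrank (ZMod p) ((R p ⧸ Q) ⧸ S) + finrank (ZMod p) S = finrank (ZMod p) (R p ⧸ Q) :=
    Submodule.finrank_quotient_add_finrank S
  have e2 : finrank (ZMod p) ((R p ⧸ Q) ⧸ S) = finrank (ZMod p) (R p ⧸ IK p K) :=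
    LinearEquiv.finrank_eq (Submodule.quotientQuotientEquivQuotient Q (IK p K) hQle)
  have e3 : m ≤ finrank (ZMod p) S := by omega
  have e4 : Nat.card S = p ^ finrank (ZMod p) S := by
    rw [Module.natCard_eq_pow_finrank (K := ZMod p), Nat.card_zmod]
  have hp : 0 < p := (Fact.out : p.Prime).pos
  have e5 : p ^ m ≤ Nat.card S := by
    rw [e4]
    exact Nat.pow_le_pow_right hp e3
  refine e5.trans ?_
  have hk : ∀ s : S, ∃ k : F2, Q.mkQ (u p k - 1) = (s : R p ⧸ Q) := by
    rintro ⟨s, hs⟩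
    obtain ⟨x, hx, rfl⟩ := hs
    obtain ⟨k, -, hk⟩ := sur_IK p K hK x hx
    rw [hQ] at hk
    refine ⟨k, ?_⟩
    have : Q.mkQ (x - (u p k - 1)) = 0 := by
      rw [Submodule.mkQ_apply, Submodule.Quotient.mk_eq_zero]
      exact hk
    rw [map_sub, sub_eq_zero] at this
    exact this.symm
  choose k hk using hk
  have hinj : Function.Injective (fun s : S => (QuotientGroup.mk (k s) : F2 ⧸ K')) := by
    intro s t hst
    have h1 : (k s)⁻¹ * k t ∈ K' := QuotientGroup.eq.mp hst
    rw [hK'] at h1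
    have h3 := hQl (u p (k s)) _ h1
    rw [mul_sub, mul_one, ← u_mul, mul_inv_cancel_left] at h3
    apply Subtype.ext
    rw [← hk s, ← hk t]
    have h4 : Q.mkQ ((u p (k t) - 1) - (u p (k s) - 1)) = 0 := by
      rw [Submodule.mkQ_apply, Submodule.Quotient.mk_eq_zero, sub_sub_sub_cancel_right]
      exact h3
    rw [map_sub, sub_eq_zero] at h4
    exact h4.symm
  have : Finite (F2 ⧸ K') := Subgroup.finite_quotient_of_finiteIndex
  exact Nat.card_le_card_of_injective _ hinj

end NLU
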