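import Pool.Agent.Lib.NLU.Frn
import Pool.Agent.Lib.NLU.Fmu
import Pool.Agent.Lib.NLU.Gsj
import Pool.Agent.Lib.NLU.Idy
import Pool.Agent.Lib.NLU.Rem
import Pool.Agent.Lib.NLU.Tin
import Pool.Agent.Lib.NLU.Pdi
import Pool.Agent.Lib.NLU.Fnq
import Pool.Agent.Lib.NLT.Tra
import Pool.Agent.Lib.NLT.Num2
import Pool.Agent.Lib.NLT.Gro

/-!
# NLU / Fin: assembly
-/

set_option autoImplicit false

namespace NLU

open NLB NLT Module

section

variable (p : ℕ) [Fact p.Prime]

private theorem Dl_twoU : TwoSided p (Dl p) := by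
  constructor
  · intro a x hx
    have h : eps p x = 0 := hx
    show eps p (a * x) = 0
    rw [map_mul, h, mul_zero]
  · intro a x hx
    have h : eps p x = 0 := hx
    show eps p (x * a) = 0
    rw [map_mul, h, zero_mul]

private theorem prod_twoU (I J : Submodule (ZMod p) (R p)) (hI : TwoSided p I) (hJ : TwoSided p J) : TwoSided p (I * J) := by
  constructor
  · intro a x hx
    refine Submodule.mul_induction_on (C := fun x => a * x ∈ I * J) hx (fun m hm i hi => ?_) fun x y hx hy => ?_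
    · rw [← mul_assoc]
      exact Submodule.mul_mem_mul (hI.l a m hm) hi
    · rw [mul_add]
      exact Submodule.add_mem _ hx hy
  · intro a x hx
    refine Submodule.mul_induction_on (C := fun x => x * a ∈ I * J) hx (fun m hm i hi => ?_) fun x y hx hy => ?_
    · rw [mul_assoc]
      exact Submodule.mul_mem_mul hm (hJ.r a i hi)
    · rw [add_mul]
      exact Submodule.add_mem _ hx hy

private theorem one_notU (I : Submodule (ZMod p) (R p)) (h : I ≤ Dl p) : (1 : R p) ∉ I := by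
  intro h1
  have h2 : eps p 1 = 0 := h h1
  rw [map_one] at h2
  exact one_ne_zero h2

private theorem fin_DlU : FiniteDimensional (ZMod p) (R p ⧸ Dl p) := by
  have := fin_A p 1
  have h : A p 1 ≤ Dl p := by
    intro x hx
    refine Submodule.mul_induction_on (C := fun x => x ∈ Dl p) hx (fun m _ i hi => (Dl_twoU p).l m i hi)
      fun x y hx hy => Submodule.add_mem _ hx hy
  exact Module.Finite.of_surjective (Submodule.factor h) (Submodule.factor_surjective h)

theorem fin_IKDl (K : Subgroup F2) (hf : K.FiniteIndex) : FiniteDimensional (ZMod p) (R p ⧸ (IK p K * Dl p)) := by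
  obtain ⟨ι, _, _, β, D, -, hfr⟩ := exists_fr_fin p (Dl p) (Dl_twoU p).l (fin_DlU p) (one_notU p _ le_rfl)
  exact fin_mul p (IK p K) (Dl p) (IK_fin p K hf) (fin_DlU p) β D hfr

theorem good_zeroU : GoodU ⊤ 1 1 := by
  refine ⟨inferInstance, inferInstance, fun g => Subgroup.mem_top _, ?_⟩
  rw [Subgroup.index_top]

theorem good_succU (K : Subgroup F2) (e m : ℕ) (h : GoodU K e m) : ∃ K', GoodU K' (e * p) (p ^ m) := by
  obtain ⟨hn, hf, he, hi⟩ := h
  have hfin := fin_IKDl p K hf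
  have hQ := prod_twoU p _ _ (IK_two p K hn) (Dl_twoU p)
  obtain ⟨K', hK', hn', hf', -⟩ := exists_KSf p _ hQ hfin
  refine ⟨K', hn', hf', fun g => ?_, ?_⟩
  · have : CharP (R p) p := charP_of_injective_algebraMap (algebraMap (ZMod p) (R p)).injective p
    have e0 : u p g ^ (e * p) - 1 = (u p g ^ e - 1) ^ p := by
      have h3 := sub_pow_char_pow_of_commute p 1 (Commute.one_right (u p g ^ e))
      rw [pow_one, one_pow] at h3
      rw [h3, pow_mul]
    rw [hK', u_pow, e0]
    have h1 : u p g ^ e - 1 ∈ IK p K := by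
      rw [← u_pow]
      exact IK_mem p K _ (he g)
    obtain ⟨r, hr⟩ : ∃ r, p = r + 2 := ⟨p - 2, by have := (Fact.out : p.Prime).two_le; omega⟩
    have h2 : (u p g ^ e - 1) ^ p = (u p g ^ e - 1) * ((u p g ^ e - 1) ^ (r + 1)) := by
      rw [← pow_succ', ← hr]
    rw [h2, pow_succ]
    exact Submodule.mul_mem_mul h1 ((Dl_twoU p).l _ _ (IK_le p K h1))
  · exact idx_fin p K hn hf hfin m (hi.trans (IK_idx p K hf)) K' hK' hf'

end

theorem exists_goodU (l : List ℕ) (hl : ∀ r ∈ l, r.Prime) : ∃ K, GoodU K l.prod (tw l) := by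
  induction l with
  | nil => exact ⟨⊤, good_zeroU⟩
  | cons p l ih =>
    obtain ⟨K, hK⟩ := ih fun r hr => hl r (List.mem_cons_of_mem _ hr)
    have : Fact p.Prime := ⟨hl p List.mem_cons_self⟩
    obtain ⟨K', hK'⟩ := good_succU p K _ _ hK
    refine ⟨K', ?_⟩
    rw [List.prod_cons, mul_comm]
    exact hK'

/-- the infinite torsion group -/
theorem tower_inf (p : ℕ) [Fact p.Prime] (l : List ℕ) (hl : ∀ r ∈ l, r.Prime) (N : ℕ) (hN : 2 ^ (N + 4) ≤ tw l) :
    ∃ (G : Type) (_ : Group G) (S : Finset G), Infinite G ∧ PiGroup (p :: l) G ∧ S.card ≤ 2 ∧ Subgroup.closure (S : Set G) = ⊤ ∧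
      Cond N (l.prod * p) S ∧ ∀ x : G, x ≠ 1 → ∃ (Q : Type) (_ : Group Q) (f : G →* Q), Finite Q ∧ f x ≠ 1 := by
  obtain ⟨K, hn, hf, he, hi⟩ := exists_goodU l hl
  have hI := IK_two p K hn
  have hfin : FiniteDimensional (ZMod p) (R p ⧸ IK p K) := IK_fin p K hf
  have hm : 2 ^ (N + 4) ≤ finrank (ZMod p) (R p ⧸ IK p K) := hN.trans (hi.trans (IK_idx p K hf))
  obtain ⟨ι, _, _, β, D, hι, hfr⟩ := exists_fr_fin p (IK p K) hI.l hfin (one_notU p _ (IK_le p K))
  have hfw := fin_Iw p (IK p K) hfin β D hfr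
  obtain ⟨T, hT, hTs⟩ := exists_T p (IK p K)
  obtain ⟨t, s0, ht, ht1, hs0, hsum⟩ := num2 (finrank (ZMod p) (R p ⧸ IK p K)) N hm
  obtain ⟨V, B, hV, hB, hw, htor, hcard⟩ := exists_relf p (IK p K) hI l.prod N s0 hs0 (fun g => by
    rw [← u_pow]
    exact IK_mem p K _ (he g))
  have hpos : 0 < l.prod := List.prod_pos (fun r hr => (hl r hr).pos)
  refine torsion_fin p (l.prod * p) N l.prod hpos (p :: l) List.mem_cons_self (fun r hr hrd => ?_) (IK p K) V hI (fun n => ?_) hw htor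
    fun C => ?_
  · obtain ⟨a, ha, hra⟩ := (Nat.Prime.prime hr).dvd_prod_iff.1 hrd
    rw [(Nat.prime_dvd_prime_iff_eq hr (hl a ha)).1 hra]
    exact List.mem_cons_of_mem _ ha
  · have := hfw n
    exact Module.Finite.of_surjective
      (Submodule.factor (le_sup_right : Iw p (IK p K) n ≤ Jd p V ⊔ Iw p (IK p K) n)) (Submodule.factor_surjective _)
  · have hineq := gs_ineq_fin p (IK p K) V hI hfw hV β D hfr T hTs B hB
    rw [hι] at hineq
    have hm1 : 1 ≤ finrank (ZMod p) (R p ⧸ IK p K) := le_trans Nat.one_le_two_pow hm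
    have h1 : 1 ≤ bI p (IK p K) V 1 := by
      have h2 := hineq 0
      simp only [Finset.Icc_eq_empty_of_lt (show (0 : ℕ) < 1 by norm_num), Finset.sum_empty, add_zero, zero_add] at h2
      exact le_trans hm1 (le_trans (Nat.le_add_right _ _) h2)
    have hgrow := growth_rel (finrank (ZMod p) (R p ⧸ IK p K) + 1) (bI p (IK p K) V) (fun w => T.card * (B w).card) t ht ht1.le h1
      (fun n => le_trans (by omega) (hineq n)) (fun M => by
        refine le_trans (Finset.sum_le_sum fun w _ => ?_) (hsum M)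
        refine mul_le_mul_of_nonneg_right ?_ (by positivity)
        rw [hT]
        exact_mod_cast Nat.mul_le_mul_left _ (hcard w))
    have hτ : 1 < 1 / t := by
      rw [lt_div_iff₀ ht, one_mul]
      exact ht1
    obtain ⟨n, hn'⟩ := pow_unbounded_of_one_lt (C : ℝ) hτ
    refine ⟨n + 1, ?_⟩
    exact_mod_cast hn'.trans_le (hgrow n)

/-- the tower lower bound -/
theorem tower_list (l : List ℕ) (hl : ∀ r ∈ l, r.Prime) (k n N : ℕ) (hk : 2 ≤ k) (hn : l.prod ∣ n) (hN : 2 ^ (N + 4) ≤ tw l.tail) :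
    (∀ C : ℕ, ∃ (G : Type) (_ : Group G) (S : Finset G), Finite G ∧ PiGroup l G ∧ S.card = k ∧
      Subgroup.closure (S : Set G) = ⊤ ∧ Cond N n S ∧ C < Nat.card G) ∧
    ∃ (G : Type) (_ : Group G) (S : Finset G), Infinite G ∧ PiGroup l G ∧ S.card = k ∧ Subgroup.closure (S : Set G) = ⊤ ∧
      Cond N n S ∧ ∀ x : G, x ≠ 1 → ∃ (Q : Type) (_ : Group Q) (f : G →* Q), Finite Q ∧ f x ≠ 1 := by
  rcases l with _ | ⟨p, l⟩
  · have h1 : tw ([] : List ℕ).tail = 1 := rfl
    rw [h1] at hN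
    have h2 : 2 ^ 1 ≤ 2 ^ (N + 4) := Nat.pow_le_pow_right (by norm_num) (by omega)
    omega
  have : Fact p.Prime := ⟨hl p List.mem_cons_self⟩
  rw [List.tail_cons] at hN
  obtain ⟨G, _, S, hinf, hpg, hSc, hcl, hcond, hR⟩ := tower_inf p l (fun r hr => hl r (List.mem_cons_of_mem _ hr)) N hN
  obtain ⟨G', _, S', hinf', hpg', hSc', hcl', hcond', hR'⟩ :=
    pad_list (p :: l) p N (l.prod * p) k (dvd_mul_left _ _) hk G List.mem_cons_self hpg S hSc hcl hcond hR
  have hcn : Cond N n S' := by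
    intro w hw hx
    rw [List.prod_cons, mul_comm] at hn
    obtain ⟨c, rfl⟩ := hn
    rw [pow_mul, hcond' w hw hx, one_pow]
  refine ⟨fun C => ?_, G', inferInstance, S', hinf', hpg', hSc', hcl', hcn, hR'⟩
  obtain ⟨H, _, S'', h1, h2, h3, h4, h5, h6⟩ := large_finite (p :: l) N n G' hpg' S' hcl' hcn hR' C
  exact ⟨H, inferInstance, S'', h1, h2, h3.trans hSc', h4, h5, h6⟩

end NLU
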