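import Pool.Agent.Lib.NLU.Defs

/-!
# NLU / Gnr: generators of the left ideal

PROOF IN WORDS. Let `I'` be the set of all `∑ a i * β i` (range of a linear map `(ι → R) → R`), a left ideal, `I' ≤ I`. `S' = span (mon W) ⊔ I'`. By `hW` `X b * S' ≤ S'`, so `u (of b) * S' ≤ S'`. The image of `S'` in `R ⧸ I'` is finite dimensional (spanned by the finite set `mon W`), left multiplication by `u (of b)` is injective on `R ⧸ I'`
(inverse `u (of b)⁻¹`, `I'` is a left ideal), so it is onto on this image, and `u (of b)⁻¹ * S' ≤ S'`. By induction on `g` `u g * S' ≤ S'`; `1 = mon [] ∈ S'`, so `S' = ⊤` (`span_u`). Let `x ∈ I`, `x = ∑_(w ∈ W) c w • mon w + y`, `y ∈ I' ≤ I`. Then `∑ c w • mon w ∈ I`, so all `c w = 0` by `hli`, and `x = y`.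
-/

set_option autoImplicit false

namespace NLU

open NLB NLT Module

variable (p : ℕ) [Fact p.Prime]

theorem gen_I (I : Submodule (ZMod p) (R p)) (hI : ∀ a x : R p, x ∈ I → a * x ∈ I) (W : Finset (List Bool)) (h0 : [] ∈ W)
    (hli : LinearIndependent (ZMod p) (fun w : W => (Submodule.Quotient.mk (mon p w.1) : R p ⧸ I)))
    {ι : Type} [Fintype ι] (β : ι → R p) (hβ : ∀ i, β i ∈ I)
    (hW : ∀ b : Bool, ∀ w ∈ W, X p b * mon p w ∈ Submodule.span (ZMod p) (mon p '' (W : Set (List Bool))) ⊔ Submodule.span (ZMod p) (Set.range β)) :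
    ∀ x ∈ I, ∃ a : ι → R p, x = ∑ i, a i * β i := by
  classical
  let L : (ι → R p) →ₗ[ZMod p] R p := ∑ i, (LinearMap.mulRight (ZMod p) (β i)).comp (LinearMap.proj i)
  have hL : ∀ a, L a = ∑ i, a i * β i := fun a => by
    rw [LinearMap.sum_apply]
    rfl
  set I' : Submodule (ZMod p) (R p) := LinearMap.range L with hI'
  have hl : ∀ c x : R p, x ∈ I' → c * x ∈ I' := by
    rintro c _ ⟨a, rfl⟩
    refine ⟨fun i => c * a i, ?_⟩
    rw [hL, hL, Finset.mul_sum]
    exact Finset.sum_congr rfl fun i _ => mul_assoc _ _ _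
  have hle : I' ≤ I := by
    rintro _ ⟨a, rfl⟩
    rw [hL]
    exact Submodule.sum_mem _ fun i _ => hI _ _ (hβ i)
  have hβ' : ∀ i, β i ∈ I' := by
    intro i
    refine ⟨Pi.single i 1, ?_⟩
    rw [hL, Finset.sum_eq_single i]
    · rw [Pi.single_eq_same, one_mul]
    · intro j _ hj
      rw [Pi.single_eq_of_ne hj, zero_mul]
    · intro h
      exact absurd (Finset.mem_univ i) h
  set M : Submodule (ZMod p) (R p) := Submodule.span (ZMod p) (mon p '' (W : Set (List Bool))) with hM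
  have hfin : FiniteDimensional (ZMod p) M := FiniteDimensional.span_of_finite _ (W.finite_toSet.image _)
  have hX : ∀ b, ∀ x ∈ M ⊔ I', X p b * x ∈ M ⊔ I' := by
    intro b
    have h1 : M ⊔ I' ≤ (M ⊔ I').comap (LinearMap.mulLeft (ZMod p) (X p b)) := by
      refine sup_le (Submodule.span_le.2 ?_) fun x hx => ?_
      · rintro _ ⟨w, hw, rfl⟩
        have h2 : M ⊔ Submodule.span (ZMod p) (Set.range β) ≤ M ⊔ I' := by
          refine sup_le_sup_left (Submodule.span_le.2 ?_) _
          rintro _ ⟨i, rfl⟩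
          exact hβ' i
        exact h2 (hW b w hw)
      · exact Submodule.mem_sup_right (hl _ _ hx)
    exact fun x hx => h1 hx
  have hu : ∀ b, ∀ x ∈ M ⊔ I', u p (FreeGroup.of b) * x ∈ M ⊔ I' := by
    intro b x hx
    have h1 : u p (FreeGroup.of b) * x = X p b * x + x := by
      unfold X
      rw [sub_mul, one_mul, sub_add_cancel]
    rw [h1]
    exact Submodule.add_mem _ (hX b x hx) hx
  have hinv : ∀ b, ∀ x ∈ M ⊔ I', u p (FreeGroup.of b)⁻¹ * x ∈ M ⊔ I' := by
    intro b x hx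
    set v : R p := u p (FreeGroup.of b) with hv
    have hvi : u p (FreeGroup.of b)⁻¹ * v = 1 := u_inv_mul p _
    let φ : (R p ⧸ I') →ₗ[ZMod p] (R p ⧸ I') :=
      Submodule.mapQ I' I' (LinearMap.mulLeft (ZMod p) v) fun y hy => hl v y hy
    let ψ : (R p ⧸ I') →ₗ[ZMod p] (R p ⧸ I') :=
      Submodule.mapQ I' I' (LinearMap.mulLeft (ZMod p) (u p (FreeGroup.of b)⁻¹)) fun y hy => hl _ y hy
    have hφ : ∀ y : R p, φ (Submodule.Quotient.mk y) = Submodule.Quotient.mk (v * y) := fun y => rfl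
    have hψ : ∀ y : R p, ψ (Submodule.Quotient.mk y) = Submodule.Quotient.mk (u p (FreeGroup.of b)⁻¹ * y) := fun y => rfl
    have hψφ : ∀ q, ψ (φ q) = q := by
      intro q
      obtain ⟨y, rfl⟩ := Submodule.Quotient.mk_surjective I' q
      rw [hφ, hψ, ← mul_assoc, hvi, one_mul]
    have hT : ∀ q ∈ M.map I'.mkQ, φ q ∈ M.map I'.mkQ := by
      rintro _ ⟨m, hm, rfl⟩
      have h1 : v * m ∈ M ⊔ I' := hu b m (Submodule.mem_sup_left hm)
      obtain ⟨m', hm', i', hi', h2⟩ := Submodule.mem_sup.1 h1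
      refine ⟨m', hm', ?_⟩
      show (Submodule.Quotient.mk m' : R p ⧸ I') = Submodule.Quotient.mk (v * m)
      rw [Submodule.Quotient.eq, ← h2]
      have h3 : m' - (m' + i') = -i' := by abel
      rw [h3]
      exact Submodule.neg_mem _ hi'
    let T := M.map I'.mkQ
    let φT : T →ₗ[ZMod p] T := φ.restrict hT
    have hinj : Function.Injective φT := by
      intro s t hst
      apply Subtype.ext
      have h1 : φ s.1 = φ t.1 := congrArg Subtype.val hst
      rw [← hψφ s.1, h1, hψφ]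
    have hsurj : Function.Surjective φT := LinearMap.injective_iff_surjective.1 hinj
    obtain ⟨m, hm, i, hi, rfl⟩ := Submodule.mem_sup.1 hx
    obtain ⟨⟨_, m2, hm2, rfl⟩, h1⟩ := hsurj ⟨I'.mkQ m, m, hm, rfl⟩
    have h2 : (Submodule.Quotient.mk (v * m2) : R p ⧸ I') = Submodule.Quotient.mk m := congrArg Subtype.val h1
    rw [Submodule.Quotient.eq] at h2
    have h3 : u p (FreeGroup.of b)⁻¹ * (m + i) =
        m2 + (u p (FreeGroup.of b)⁻¹ * i - u p (FreeGroup.of b)⁻¹ * (v * m2 - m)) := by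
      rw [mul_sub, ← mul_assoc, hvi, one_mul, mul_add]
      abel
    rw [h3]
    exact Submodule.add_mem _ (Submodule.mem_sup_left hm2)
      (Submodule.mem_sup_right (Submodule.sub_mem _ (hl _ _ hi) (hl _ _ h2)))
  have hg : ∀ g : F2, ∀ x ∈ M ⊔ I', u p g * x ∈ M ⊔ I' := by
    intro g
    induction g using FreeGroup.induction_on with
    | C1 =>
      intro x hx
      rw [u_one, one_mul]
      exact hx
    | of b => exact hu b
    | inv_of b _ => exact hinv b
    | mul g h ih1 ih2 =>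
      intro x hx
      rw [u_mul, mul_assoc]
      exact ih1 _ (ih2 x hx)
  have h1 : (1 : R p) ∈ M ⊔ I' := Submodule.mem_sup_left (Submodule.subset_span ⟨[], h0, rfl⟩)
  have htop : ∀ x : R p, x ∈ M ⊔ I' := by
    intro x
    have h2 : Submodule.span (ZMod p) (Set.range (u p)) ≤ M ⊔ I' := by
      refine Submodule.span_le.2 ?_
      rintro _ ⟨g, rfl⟩
      have h3 := hg g 1 h1
      rwa [mul_one] at h3
    exact h2 (by rw [span_u]; exact Submodule.mem_top)
  intro x hx
  obtain ⟨m, hm, y, hy, h2⟩ := Submodule.mem_sup.1 (htop x)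
  have hmI : m ∈ I := by
    have h3 : m = x - y := by rw [← h2, add_sub_cancel_right]
    rw [h3]
    exact Submodule.sub_mem _ hx (hle hy)
  have hm' : m ∈ Submodule.span (ZMod p) (Set.range fun w : W => mon p w.1) := by
    refine Submodule.span_mono ?_ hm
    rintro _ ⟨w, hw, rfl⟩
    exact ⟨⟨w, hw⟩, rfl⟩
  obtain ⟨c, hc⟩ := (Submodule.mem_span_range_iff_exists_fun (ZMod p)).1 hm'
  have hc0 : ∀ w, c w = 0 := by
    refine Fintype.linearIndependent_iff.1 hli c ?_
    have h3 : (Submodule.Quotient.mk m : R p ⧸ I) = 0 := (Submodule.Quotient.mk_eq_zero I).2 hmI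
    rw [← hc, ← Submodule.mkQ_apply, map_sum] at h3
    rw [← h3]
    refine Finset.sum_congr rfl fun w _ => ?_
    rw [map_smul, Submodule.mkQ_apply]
  have hm0 : m = 0 := by
    rw [← hc]
    exact Finset.sum_eq_zero fun w _ => by rw [hc0 w, zero_smul]
  rw [hm0, zero_add] at h2
  obtain ⟨a, ha⟩ := hy
  exact ⟨a, by rw [← h2, ← ha, hL]⟩

end NLU
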