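import Pool.Agent.Lib.NLU.Defs

/-!
# NLU / Wsc: a basis of the quotient by monomials, closed under suffixes

PROOF IN WORDS. Among the finite sets `W` of words with `[] ∈ W`, closed under `b :: w ∈ W → w ∈ W`, whose monomials are linearly independent modulo `I`, take one
with the largest number of elements. Let `S` be the span of the classes. Left multiplication by `X b` maps `S` to `S` (by maximality), so does `u (of b)`, which is
injective, so also its inverse. By induction `u g S ≤ S`, so `S = ⊤`.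
-/

set_option autoImplicit false

namespace NLU

open NLB NLT Module

variable (p : ℕ) [Fact p.Prime]

private theorem exists_max {F V ι : Type} [Field F] [AddCommGroup V] [Module F V] [FiniteDimensional F V] (f : ι → V)
    (P : Finset ι → Prop) (hP : ∃ W, P W) (hlin : ∀ W, P W → LinearIndepOn F f (W : Set ι)) :
    ∃ W, P W ∧ ∀ W', P W' → W'.card ≤ W.card := by
  classical
  have hb : BddAbove {n | ∃ W, P W ∧ W.card = n} := by
    refine ⟨finrank F V, ?_⟩
    rintro n ⟨W, hW, rfl⟩
    have h1 : LinearIndependent F (fun x : W => f x) := hlin W hW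
    have h2 := h1.fintype_card_le_finrank
    rwa [Fintype.card_coe] at h2
  have hne : {n | ∃ W, P W ∧ W.card = n}.Nonempty := by
    obtain ⟨W, hW⟩ := hP
    exact ⟨_, W, hW, rfl⟩
  obtain ⟨W, hW, hc⟩ := Nat.sSup_mem hne hb
  refine ⟨W, hW, fun W' hW' => ?_⟩
  rw [hc]
  exact le_csSup hb ⟨W', hW', rfl⟩

private theorem wsc_mon (b : Bool) (w : List Bool) : mon p (b :: w) = X p b * mon p w := by
  unfold mon
  rw [List.map_cons, List.prod_cons]

/-- left multiplication on the quotient -/
private noncomputable def lm (I : Submodule (ZMod p) (R p)) (hI : ∀ a x : R p, x ∈ I → a * x ∈ I) (a : R p) :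
    (R p ⧸ I) →ₗ[ZMod p] (R p ⧸ I) :=
  I.mapQ I (LinearMap.mulLeft (ZMod p) a) fun x hx => hI a x hx

private theorem lm_mk (I : Submodule (ZMod p) (R p)) (hI : ∀ a x : R p, x ∈ I → a * x ∈ I) (a x : R p) :
    lm p I hI a (I.mkQ x) = I.mkQ (a * x) := rfl

private theorem lm_mul (I : Submodule (ZMod p) (R p)) (hI : ∀ a x : R p, x ∈ I → a * x ∈ I) (a b : R p) (v : R p ⧸ I) :
    lm p I hI (a * b) v = lm p I hI a (lm p I hI b v) := by
  obtain ⟨x, rfl⟩ := Submodule.mkQ_surjective I v
  rw [lm_mk, lm_mk, lm_mk, mul_assoc]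

private theorem lm_one (I : Submodule (ZMod p) (R p)) (hI : ∀ a x : R p, x ∈ I → a * x ∈ I) (v : R p ⧸ I) :
    lm p I hI 1 v = v := by
  obtain ⟨x, rfl⟩ := Submodule.mkQ_surjective I v
  rw [lm_mk, one_mul]

private theorem lm_of (I : Submodule (ZMod p) (R p)) (hI : ∀ a x : R p, x ∈ I → a * x ∈ I) (b : Bool) (v : R p ⧸ I) :
    lm p I hI (u p (FreeGroup.of b)) v = lm p I hI (X p b) v + v := by
  obtain ⟨x, rfl⟩ := Submodule.mkQ_surjective I v
  rw [lm_mk, lm_mk, ← map_add]
  congr 1
  rw [X, sub_mul, one_mul, sub_add_cancel]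

private theorem stab (I : Submodule (ZMod p) (R p)) (hI : ∀ a x : R p, x ∈ I → a * x ∈ I)
    (hfin : FiniteDimensional (ZMod p) (R p ⧸ I)) (S : Submodule (ZMod p) (R p ⧸ I))
    (hX : ∀ b, ∀ s ∈ S, lm p I hI (X p b) s ∈ S) (g : F2) : ∀ s ∈ S, lm p I hI (u p g) s ∈ S := by
  induction g using FreeGroup.induction_on with
  | C1 =>
    intro s hs
    rw [u_one, lm_one]
    exact hs
  | of b =>
    intro s hs
    have h1 := lm_of p I hI b s
    rw [h1]
    exact S.add_mem (hX b s hs) hs
  | inv_of b ih =>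
    intro s hs
    set T := lm p I hI (u p (FreeGroup.of b)) with hT
    have hinj : Function.Injective T := by
      intro v w hvw
      have h2 := congrArg (lm p I hI (u p (FreeGroup.of b)⁻¹)) hvw
      rw [hT, ← lm_mul, ← lm_mul, u_inv_mul, lm_one, lm_one] at h2
      exact h2
    have hle : S.map T ≤ S := by
      rintro _ ⟨v, hv, rfl⟩
      exact ih v hv
    have heq : S.map T = S := by
      refine Submodule.eq_of_le_of_finrank_le hle ?_
      exact (Submodule.equivMapOfInjective T hinj S).finrank_eq.le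
    rw [← heq] at hs
    obtain ⟨v, hv, rfl⟩ := hs
    rw [hT, ← lm_mul]
    have h3 : u p (FreeGroup.of b)⁻¹ * u p (FreeGroup.of b) = 1 := u_inv_mul p _
    rw [h3, lm_one]
    exact hv
  | mul x y hx hy =>
    intro s hs
    rw [u_mul, lm_mul]
    exact hx _ (hy s hs)

theorem exists_W (I : Submodule (ZMod p) (R p)) (hI : ∀ a x : R p, x ∈ I → a * x ∈ I) (hfin : FiniteDimensional (ZMod p) (R p ⧸ I))
    (h1 : (1 : R p) ∉ I) :
    ∃ W : Finset (List Bool), [] ∈ W ∧ (∀ b w, b :: w ∈ W → w ∈ W) ∧
      LinearIndependent (ZMod p) (fun w : W => (Submodule.Quotient.mk (mon p w.1) : R p ⧸ I)) ∧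
      ⊤ ≤ Submodule.span (ZMod p) (Set.range fun w : W => (Submodule.Quotient.mk (mon p w.1) : R p ⧸ I)) := by
  classical
  set f : List Bool → (R p ⧸ I) := fun w => I.mkQ (mon p w) with hf
  have hnil : f [] ≠ 0 := by
    intro h
    apply h1
    have h2 : I.mkQ (mon p []) = 0 := h
    rwa [Submodule.mkQ_apply, Submodule.Quotient.mk_eq_zero] at h2
  obtain ⟨W, ⟨hW1, hW2, hW3⟩, hmax⟩ := exists_max (F := ZMod p) f
    (fun W => [] ∈ W ∧ (∀ b w, b :: w ∈ W → w ∈ W) ∧ LinearIndepOn (ZMod p) f (W : Set (List Bool)))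
    ⟨{[]}, Finset.mem_singleton_self _, fun b w h => by simp at h, by
      rw [Finset.coe_singleton]
      exact LinearIndepOn.singleton hnil⟩ (fun W h => h.2.2)
  set S := Submodule.span (ZMod p) (f '' (W : Set (List Bool))) with hS
  have hstep : ∀ b, ∀ w ∈ W, f (b :: w) ∈ S := by
    intro b w hw
    by_cases hb : b :: w ∈ W
    · exact Submodule.subset_span ⟨_, hb, rfl⟩
    by_contra hn
    have h2 := hmax (insert (b :: w) W) ⟨Finset.mem_insert_of_mem hW1, ?_, ?_⟩
    · rw [Finset.card_insert_of_notMem hb] at h2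
      omega
    · intro b' w' h3
      rcases Finset.mem_insert.1 h3 with h3 | h3
      · rw [List.cons.injEq] at h3
        rw [h3.2]
        exact Finset.mem_insert_of_mem hw
      · exact Finset.mem_insert_of_mem (hW2 b' w' h3)
    · rw [Finset.coe_insert]
      exact hW3.insert hn
  have hX : ∀ b, ∀ s ∈ S, lm p I hI (X p b) s ∈ S := by
    intro b
    have h2 : S ≤ S.comap (lm p I hI (X p b)) := by
      rw [hS, Submodule.span_le]
      rintro _ ⟨w, hw, rfl⟩
      have h3 := hstep b w hw
      have h4 : f (b :: w) = lm p I hI (X p b) (f w) := by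
        rw [hf]
        simp only
        rw [lm_mk, wsc_mon]
      rw [h4] at h3
      exact h3
    exact fun s hs => h2 hs
  have htop : ⊤ ≤ S := by
    intro v _
    obtain ⟨x, rfl⟩ := Submodule.mkQ_surjective I v
    have h2 : (⊤ : Submodule (ZMod p) (R p)) ≤ S.comap I.mkQ := by
      rw [← span_u, Submodule.span_le]
      rintro _ ⟨g, rfl⟩
      have h3 := stab p I hI hfin S hX g (f []) (Submodule.subset_span ⟨_, hW1, rfl⟩)
      have h4 : lm p I hI (u p g) (f []) = I.mkQ (u p g) := by
        have h5 : lm p I hI (u p g) (I.mkQ 1) = I.mkQ (u p g) := by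
          rw [lm_mk, mul_one]
        exact h5
      rw [h4] at h3
      exact h3
    exact h2 Submodule.mem_top
  refine ⟨W, hW1, hW2, hW3, ?_⟩
  rw [hS, Set.image_eq_range] at htop
  exact htop

end NLU
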